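import Mathlib
import Pool.Agent.R487.BSMain

/-! # The zero positions of the Baum–Sweet sequence do not form a regular sequence

The definitions (`ZeroBlocks`, `b`, `h`, `kernel`, `IsRegular`) are in `Pool/Agent/R487/BSDefs.lean`;
the Baum–Sweet sequence is `b 2` and the enumeration of its zeros is `h 2`. -/

set_option autoImplicit false

namespace Pool.Agent.Results.MP_4e5b66_nt.BaumSweetNotRegular

open Pool.Agent.R487.BS

/-- The strictly increasing enumeration `h 2` of the zero positions of the Baum–Sweet sequence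
`b 2` is not `k`-regular for any `k ≥ 2`. -/
theorem result :
    (StrictMono (h 2) ∧ Set.range (h 2) = {m : ℕ | b 2 m = 0}) ∧
    ¬ ∃ k : ℕ, 2 ≤ k ∧ IsRegular k (fun n => (h 2 n : ℤ)) := by
  have hr : 2 ≤ 2 := le_rfl
  refine ⟨⟨h_strictMono hr, ?_⟩, ?_⟩
  · ext m
    constructor
    · rintro ⟨n, rfl⟩; exact h_mem hr n
    · intro hm; exact ⟨N0 2 m, h_N0 hm⟩
  · rintro ⟨k, hk, hreg⟩
    exact main hr hk hreg

end Pool.Agent.Results.MP_4e5b66_nt.BaumSweetNotRegular
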